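import Mathlib

namespace Pool.Agent.MP_af84f5_co.H38

/-- The linear form `x ↦ x v - x u` of the arc `(u, v)`. -/
def arcForm {V : Type} (a : V × V) : Module.Dual ℝ (V → ℝ) :=
  (LinearMap.proj a.2 : (V → ℝ) →ₗ[ℝ] ℝ) - (LinearMap.proj a.1 : (V → ℝ) →ₗ[ℝ] ℝ)

/-- `Canonical A`: the central arrangement of the kernels of the forms in `A` is supersolvable and
the region where all forms of `A` are positive is a canonical base region
(Bjorner, Edelman and Ziegler). -/
inductive Canonical {E : Type} [AddCommGroup E] [Module ℝ E] : Set (Module.Dual ℝ E) → Prop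
  | empty : Canonical ∅
  | step (A₀ A₁ : Set (Module.Dual ℝ E)) (l : E) : Canonical A₀ →
      (∀ h ∈ A₀, h l = 0) → (∀ f ∈ A₁, 0 < f l) →
      (∀ f ∈ A₁, ∀ g ∈ A₁, f ≠ g → ∃ h ∈ A₀, ∀ x, f x = 0 → g x = 0 → h x = 0) →
      Canonical (A₀ ∪ A₁)

end Pool.Agent.MP_af84f5_co.H38
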