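import Pool.Agent.MP_af84f5_co.H64.Twin
import Pool.Agent.MP_af84f5_co.H38.CanonDefs

namespace Pool.Agent.MP_af84f5_co.H38

open Pool.Agent.MP_af84f5_co Pool.Agent.MP_af84f5_co.H64

theorem arcForm_apply {V : Type} (a : V × V) (x : V → ℝ) : arcForm a x = x a.2 - x a.1 := rfl

/-- One step of the construction, for lists of arcs. -/
theorem stepL (L₀ L₁ : List (Fin 7 × Fin 7)) (l : Fin 7 → ℤ)
    (h : Canonical (arcForm '' {a | a ∈ L₀}))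
    (h0 : ∀ a ∈ L₀, l a.2 = l a.1) (h1 : ∀ a ∈ L₁, l a.1 < l a.2)
    (h2 : ∀ a ∈ L₁, ∀ b ∈ L₁, a ≠ b → ∃ c ∈ L₀,
      (a.1 = b.1 ∧ (c = (a.2, b.2) ∨ c = (b.2, a.2))) ∨
      (a.2 = b.2 ∧ (c = (a.1, b.1) ∨ c = (b.1, a.1)))) :
    Canonical (arcForm '' {a | a ∈ L₀ ++ L₁}) := by
  have e : arcForm '' {a | a ∈ L₀ ++ L₁} = arcForm '' {a | a ∈ L₀} ∪ arcForm '' {a | a ∈ L₁} := by
    rw [← Set.image_union]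
    congr 1
    ext a
    simp
  rw [e]
  refine Canonical.step _ _ (fun v => (l v : ℝ)) h ?_ ?_ ?_
  · rintro _ ⟨a, ha, rfl⟩
    rw [arcForm_apply, h0 a ha, sub_self]
  · rintro _ ⟨a, ha, rfl⟩
    rw [arcForm_apply, sub_pos]
    exact_mod_cast h1 a ha
  · rintro _ ⟨a, ha, rfl⟩ _ ⟨b, hb, rfl⟩ hab
    obtain ⟨c, hc, hh⟩ := h2 a ha b hb (fun e => hab (by rw [e]))
    refine ⟨_, ⟨c, hc, rfl⟩, fun x ea eb => ?_⟩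
    rw [arcForm_apply] at ea eb ⊢
    rcases hh with ⟨e1, rfl | rfl⟩ | ⟨e1, rfl | rfl⟩ <;> rw [e1] at ea <;> simp only <;> linarith

theorem canonA : Canonical (arcForm '' {a : Fin 7 × Fin 7 | digA.Adj a.1 a.2}) := by
  have c0 : Canonical (arcForm '' {a : Fin 7 × Fin 7 | a ∈ ([] : List (Fin 7 × Fin 7))}) := by
    simpa using (Canonical.empty (E := Fin 7 → ℝ))
  have c1 := stepL [] [(2, 3)] ![0, 0, 0, 1, 0, 0, 0] c0 (by decide) (by decide) (by decide)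
  have c2 := stepL _ [(1, 2), (1, 3)] ![0, -1, 0, 0, 0, 0, 0] c1 (by decide) (by decide) (by decide)
  have c3 := stepL _ [(0, 1), (0, 3)] ![-1, 0, 0, 0, 0, 0, 0] c2 (by decide) (by decide) (by decide)
  have c4 := stepL _ [(5, 6)] ![0, 0, 0, 0, 0, 0, 1] c3 (by decide) (by decide) (by decide)
  have c5 := stepL _ [(4, 5), (4, 6)] ![0, 0, 0, 0, -1, 0, 0] c4 (by decide) (by decide) (by decide)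
  have c6 := stepL _ [(0, 4), (0, 6)] ![0, 0, 0, 0, 1, 1, 1] c5 (by decide) (by decide) (by decide)
  convert c6 using 2
  ext a
  simp only [Set.mem_ofPred_eq]
  revert a
  decide

theorem good_iff (a b c d e : Prop) [Decidable a] [Decidable b] [Decidable c] [Decidable d]
    [Decidable e] : good (decide a) (decide b) (decide c) (decide d) (decide e) = true ↔
      (b → a ∨ e) ∧ (a → e → b) ∧ (e → c ∨ d) ∧ (c → d → e) := by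
  by_cases a <;> by_cases b <;> by_cases c <;> by_cases d <;> by_cases e <;> simp [good, *]

theorem acyc_iff (S : Set (Fin 7 × Fin 7)) :
    IsAcyclicDigraph (reorient digA S) ↔
      (((0, 3) ∈ S → (0, 1) ∈ S ∨ (1, 3) ∈ S) ∧ ((0, 1) ∈ S → (1, 3) ∈ S → (0, 3) ∈ S) ∧
        ((1, 3) ∈ S → (1, 2) ∈ S ∨ (2, 3) ∈ S) ∧ ((1, 2) ∈ S → (2, 3) ∈ S → (1, 3) ∈ S)) ∧
      (((0, 6) ∈ S → (0, 4) ∈ S ∨ (4, 6) ∈ S) ∧ ((0, 4) ∈ S → (4, 6) ∈ S → (0, 6) ∈ S) ∧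
        ((4, 6) ∈ S → (4, 5) ∈ S ∨ (5, 6) ∈ S) ∧ ((4, 5) ∈ S → (5, 6) ∈ S → (4, 6) ∈ S)) := by
  classical
  rw [acyclicA_iff, good_iff, good_iff]

/-- The closure of a set of arcs under transitivity. -/
def up (S : Set (Fin 7 × Fin 7)) : Set (Fin 7 × Fin 7) :=
  {p | p ∈ S ∨ (p = (1, 3) ∧ (1, 2) ∈ S ∧ (2, 3) ∈ S) ∨
    (p = (0, 3) ∧ (0, 1) ∈ S ∧ ((1, 3) ∈ S ∨ ((1, 2) ∈ S ∧ (2, 3) ∈ S))) ∨
    (p = (4, 6) ∧ (4, 5) ∈ S ∧ (5, 6) ∈ S) ∨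
    (p = (0, 6) ∧ (0, 4) ∈ S ∧ ((4, 6) ∈ S ∨ ((4, 5) ∈ S ∧ (5, 6) ∈ S)))}

theorem sub_up (S : Set (Fin 7 × Fin 7)) : S ⊆ up S := fun _ h => Or.inl h

theorem up_mem (S : Set (Fin 7 × Fin 7)) :
    ((0, 1) ∈ up S ↔ (0, 1) ∈ S) ∧ ((1, 2) ∈ up S ↔ (1, 2) ∈ S) ∧ ((2, 3) ∈ up S ↔ (2, 3) ∈ S) ∧
    ((1, 3) ∈ up S ↔ (1, 3) ∈ S ∨ ((1, 2) ∈ S ∧ (2, 3) ∈ S)) ∧
    ((0, 3) ∈ up S ↔ (0, 3) ∈ S ∨ ((0, 1) ∈ S ∧ ((1, 3) ∈ S ∨ ((1, 2) ∈ S ∧ (2, 3) ∈ S)))) ∧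
    ((0, 4) ∈ up S ↔ (0, 4) ∈ S) ∧ ((4, 5) ∈ up S ↔ (4, 5) ∈ S) ∧ ((5, 6) ∈ up S ↔ (5, 6) ∈ S) ∧
    ((4, 6) ∈ up S ↔ (4, 6) ∈ S ∨ ((4, 5) ∈ S ∧ (5, 6) ∈ S)) ∧
    ((0, 6) ∈ up S ↔ (0, 6) ∈ S ∨ ((0, 4) ∈ S ∧ ((4, 6) ∈ S ∨ ((4, 5) ∈ S ∧ (5, 6) ∈ S)))) := by
  simp [up]

theorem up_le {S W : Set (Fin 7 × Fin 7)} (h : S ⊆ W)
    (a1 : (0, 1) ∈ W → (1, 3) ∈ W → (0, 3) ∈ W) (a2 : (1, 2) ∈ W → (2, 3) ∈ W → (1, 3) ∈ W)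
    (a3 : (0, 4) ∈ W → (4, 6) ∈ W → (0, 6) ∈ W) (a4 : (4, 5) ∈ W → (5, 6) ∈ W → (4, 6) ∈ W) :
    up S ⊆ W := by
  rintro p (hp | ⟨rfl, h1, h2⟩ | ⟨rfl, h1, h2 | ⟨h2, h3⟩⟩ | ⟨rfl, h1, h2⟩ | ⟨rfl, h1, h2 | ⟨h2, h3⟩⟩)
  · exact h hp
  · exact a2 (h h1) (h h2)
  · exact a1 (h h1) (h h2)
  · exact a1 (h h1) (a2 (h h2) (h h3))
  · exact a4 (h h1) (h h2)
  · exact a3 (h h1) (h h2)
  · exact a3 (h h1) (a4 (h h2) (h h3))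

theorem blockUp {A B C D E : Prop} (h1 : B → A ∨ E) (h3 : E → C ∨ D) :
    (B ∨ A ∧ (E ∨ C ∧ D) → A ∨ E ∨ C ∧ D) ∧ (A → E ∨ C ∧ D → B ∨ A ∧ (E ∨ C ∧ D)) ∧
      (E ∨ C ∧ D → C ∨ D) ∧ (C → D → E ∨ C ∧ D) := by
  refine ⟨?_, ?_, ?_, ?_⟩ <;> tauto

theorem blockDown {A B C D E : Prop} (h2 : A → E → B) (h4 : C → D → E) :
    (¬ (¬ B ∨ ¬ A ∧ (¬ E ∨ ¬ C ∧ ¬ D)) → ¬ ¬ A ∨ ¬ (¬ E ∨ ¬ C ∧ ¬ D)) ∧
      (¬ ¬ A → ¬ (¬ E ∨ ¬ C ∧ ¬ D) → ¬ (¬ B ∨ ¬ A ∧ (¬ E ∨ ¬ C ∧ ¬ D))) ∧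
      (¬ (¬ E ∨ ¬ C ∧ ¬ D) → ¬ ¬ C ∨ ¬ ¬ D) ∧ (¬ ¬ C → ¬ ¬ D → ¬ (¬ E ∨ ¬ C ∧ ¬ D)) := by
  refine ⟨?_, ?_, ?_, ?_⟩ <;> tauto

theorem orOr {a b c a' b' c' : Prop} (h : a → b ∨ c) (h' : a' → b' ∨ c') :
    a ∨ a' → (b ∨ b') ∨ (c ∨ c') := by tauto

theorem andAnd {a b c a' b' c' : Prop} (h : a → b → c) (h' : a' → b' → c') :
    a ∧ a' → b ∧ b' → c ∧ c' := by tauto

theorem lubA (S T : AR digA) : ∃ U : AR digA, IsLUB {S, T} U := by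
  obtain ⟨⟨s1, s2, s3, s4⟩, s5, s6, s7, s8⟩ := (acyc_iff _).1 S.2.2
  obtain ⟨⟨t1, t2, t3, t4⟩, t5, t6, t7, t8⟩ := (acyc_iff _).1 T.2.2
  obtain ⟨m1, m2, m3, m4, m5, m6, m7, m8, m9, m10⟩ := up_mem (S.1 ∪ T.1)
  refine ⟨⟨up (S.1 ∪ T.1), up_le (Set.union_subset S.2.1 T.2.1) (fun _ _ => by decide)
    (fun _ _ => by decide) (fun _ _ => by decide) (fun _ _ => by decide), ?_⟩, ?_, ?_⟩
  · rw [acyc_iff, m1, m2, m3, m4, m5, m6, m7, m8, m9, m10]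
    exact ⟨blockUp (orOr s1 t1) (orOr s3 t3), blockUp (orOr s5 t5) (orOr s7 t7)⟩
  · rintro W (rfl | rfl)
    · exact Set.subset_union_left.trans (sub_up _)
    · exact Set.subset_union_right.trans (sub_up _)
  · intro W hW
    obtain ⟨⟨-, w2, -, w4⟩, -, w6, -, w8⟩ := (acyc_iff _).1 W.2.2
    exact up_le (Set.union_subset (hW (Or.inl rfl)) (hW (Or.inr rfl))) w2 w4 w6 w8

theorem glbA (S T : AR digA) : ∃ U : AR digA, IsGLB {S, T} U := by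
  obtain ⟨⟨s1, s2, s3, s4⟩, s5, s6, s7, s8⟩ := (acyc_iff _).1 S.2.2
  obtain ⟨⟨t1, t2, t3, t4⟩, t5, t6, t7, t8⟩ := (acyc_iff _).1 T.2.2
  obtain ⟨m1, m2, m3, m4, m5, m6, m7, m8, m9, m10⟩ := up_mem (S.1 ∩ T.1)ᶜ
  have hs : (up (S.1 ∩ T.1)ᶜ)ᶜ ⊆ S.1 ∩ T.1 := Set.compl_subset_comm.1 (sub_up _)
  refine ⟨⟨(up (S.1 ∩ T.1)ᶜ)ᶜ, hs.trans (Set.inter_subset_left.trans S.2.1), ?_⟩, ?_, ?_⟩
  · rw [acyc_iff]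
    simp only [Set.mem_compl_iff (up _), m1, m2, m3, m4, m5, m6, m7, m8, m9, m10]
    exact ⟨blockDown (andAnd s2 t2) (andAnd s4 t4), blockDown (andAnd s6 t6) (andAnd s8 t8)⟩
  · rintro W (rfl | rfl)
    · exact hs.trans Set.inter_subset_left
    · exact hs.trans Set.inter_subset_right
  · intro W hW
    obtain ⟨⟨w1, -, w3, -⟩, w5, -, w7, -⟩ := (acyc_iff _).1 W.2.2
    have h : W.1 ⊆ S.1 ∩ T.1 := Set.subset_inter (hW (Or.inl rfl)) (hW (Or.inr rfl))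
    exact Set.subset_compl_comm.1 (up_le (Set.compl_subset_compl.2 h)
      (fun a b c => (w1 c).elim a b) (fun a b c => (w3 c).elim a b)
      (fun a b c => (w5 c).elim a b) (fun a b c => (w7 c).elim a b))

end Pool.Agent.MP_af84f5_co.H38
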